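import Pool.Agent.H17.RX.Stm

/-!
# Crew RX: part THA
-/

set_option autoImplicit false
open Filter Topology MeasureTheory
open scoped ComplexConjugate ENNReal

namespace Pool.Agent.H88.RX

open Pool.Agent.H17.RX

/-- the filter of a chain of conditions -/
def chainFilter (d : ℕ → ℕ) (t : Type) (hne : Nonempty t) (g : t → ∀ k, Finset (Th (d k)))
    (hg : ∀ i j, leC d (g i) (g j) ∨ leC d (g j) (g i)) : Filter (Σ k, Th (d k)) where
  sets := {A | ∃ (i : t) (K : ℕ), ∀ k, K ≤ k → ∀ θ ∈ g i k, (⟨k, θ⟩ : Σ k, Th (d k)) ∈ A}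
  univ_sets := by
    obtain ⟨i⟩ := hne
    exact ⟨i, 0, fun _ _ _ _ => Set.mem_univ _⟩
  sets_of_superset := by
    rintro A B ⟨i, K, h⟩ hAB
    exact ⟨i, K, fun k hk θ hθ => hAB (h k hk θ hθ)⟩
  inter_sets := by
    rintro A B ⟨i, K, hi⟩ ⟨j, L, hj⟩
    rcases hg i j with h | h
    · obtain ⟨M, hM⟩ := eventually_atTop.1 h
      refine ⟨i, max K (max L M), fun k hk θ hθ => ⟨hi k (by omega) θ hθ, hj k (by omega) θ ?_⟩⟩
      exact hM k (by omega) hθ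
    · obtain ⟨M, hM⟩ := eventually_atTop.1 h
      refine ⟨j, max K (max L M), fun k hk θ hθ => ⟨hi k (by omega) θ ?_, hj k (by omega) θ hθ⟩⟩
      exact hM k (by omega) hθ

theorem t_THA (hFORC : S_FORC) (hCARD : S_CARD) (hMON : S_MON) (hSIG : S_SIG) (hTW : S_TW)
    (hTS : S_TS) : S_THA := by
  intro hCH d hd
  -- the full condition
  have hNc : ∀ k, 1 ≤ Nc k := fun k => Nat.one_le_pow _ _ (by positivity)
  have hdown : ∀ k m n (C : Finset (Th (d k))), m ≤ n →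
      Big (1 / ((k : ℝ) + 1)) (Nc k) (d k) n C → Big (1 / ((k : ℝ) + 1)) (Nc k) (d k) m C := by
    intro k m n C hmn hB
    induction n, hmn using Nat.le_induction with
    | base => exact hB
    | succ n hn ih =>
      exact ih ((hMON (1 / ((k : ℝ) + 1)) (Nc k) (d k) (hNc k) (by positivity)).2 n C hB)
  have huniv : IsCond d (fun k => (Finset.univ : Finset (Th (d k)))) := by
    intro m
    refine Filter.Eventually.frequently ?_
    filter_upwards [eventually_ge_atTop m] with k hk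
    exact hdown k m k _ hk (hd k).2
  let P : Type := {C : ∀ k, Finset (Th (d k)) // IsCond d C}
  let le : P → P → Prop := fun a b => leC d a.1 b.1
  let t : Type := ({v : (Σ k, Th (d k)) → HH d // ∀ i, ‖v i‖ ≤ 1} × ℕ) ⊕
    ((HH d →L⋆[ℂ] HH d) × ℕ)
  let D : t → P → Prop := fun i p => match i with
    | Sum.inl vm => ∃ T : HH d →L[ℂ] HH d, ∀ (k : ℕ) (θ : Th (d k)), θ ∈ p.1 k →
        ‖T (vm.1.1 ⟨k, θ⟩) - inner ℂ (zg d ⟨k, θ⟩) (vm.1.1 ⟨k, θ⟩) • zg d ⟨k, θ⟩‖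
          ≤ 1 / ((vm.2 : ℝ) + 1)
    | Sum.inr Sm => ∀ (k : ℕ) (θ : Th (d k)), θ ∈ p.1 k →
        ‖inner ℂ (zg d ⟨k, θ⟩) (Sm.1 (zg d ⟨k, θ⟩))‖ ≤ 1 / ((Sm.2 : ℝ) + 1)
  have hcard : Cardinal.mk t ≤ Cardinal.aleph 1 := by
    rw [← hCH]
    obtain ⟨c1, c2⟩ := hCARD d
    have e0 : Cardinal.mk ℕ ≤ Cardinal.continuum.{0} := by
      rw [Cardinal.mk_nat]; exact Cardinal.aleph0_le_continuum
    have e1 : Cardinal.mk ({v : (Σ k, Th (d k)) → HH d // ∀ i, ‖v i‖ ≤ 1} × ℕ) ≤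
        Cardinal.continuum.{0} := by
      rw [← Cardinal.mul_def]
      exact Cardinal.mul_le_of_le Cardinal.aleph0_le_continuum
        ((Cardinal.mk_subtype_le _).trans c1) e0
    have e2 : Cardinal.mk ((HH d →L⋆[ℂ] HH d) × ℕ) ≤ Cardinal.continuum.{0} := by
      rw [← Cardinal.mul_def]
      exact Cardinal.mul_le_of_le Cardinal.aleph0_le_continuum c2 e0
    show Cardinal.mk (_ ⊕ _) ≤ _
    rw [← Cardinal.add_def]
    exact Cardinal.add_le_of_le Cardinal.aleph0_le_continuum e1 e2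
  obtain ⟨g, hgD, hgc⟩ := hFORC P le
    (fun a => Filter.Eventually.of_forall fun k => subset_refl _)
    (fun a b c hab hbc => by
      filter_upwards [hab, hbc] with k h1 h2
      exact h1.trans h2)
    ⟨⟨_, huniv⟩⟩
    (fun s hs => by
      obtain ⟨C', hC', hle⟩ := hSIG d (fun j => (s j).1) (fun j => (s j).2) hs
      exact ⟨⟨C', hC'⟩, hle⟩)
    t D hcard
    (fun i p => by
      rcases i with ⟨v, m⟩ | ⟨S, m⟩
      · obtain ⟨C', h1, h2, T, hT⟩ := hTW d p.1 p.2 v.1 v.2 (1 / ((m : ℝ) + 1)) (by positivity)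
        exact ⟨⟨C', h1⟩, h2, T, hT⟩
      · obtain ⟨C', h1, h2, hS⟩ := hTS d p.1 p.2 S (1 / ((m : ℝ) + 1)) (by positivity)
        exact ⟨⟨C', h1⟩, h2, hS⟩)
  have htne : Nonempty t := ⟨Sum.inr (0, 0)⟩
  set Fl := chainFilter d t htne (fun i => (g i).1) hgc with hFl
  have hmem : ∀ A : Set (Σ k, Th (d k)), A ∈ Fl ↔ ∃ (i : t) (K : ℕ), ∀ k, K ≤ k →
      ∀ θ ∈ (g i).1 k, (⟨k, θ⟩ : Σ k, Th (d k)) ∈ A := fun A => Iff.rfl
  have hbot : Fl.NeBot := by
    rw [Filter.neBot_iff]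
    intro h0
    have h1 : (∅ : Set (Σ k, Th (d k))) ∈ Fl := by rw [h0]; exact Filter.mem_bot
    obtain ⟨i, K, hK⟩ := (hmem _).1 h1
    have h2 := (g i).2 0
    obtain ⟨k, hk, hB⟩ := Filter.frequently_atTop.1 h2 K
    obtain ⟨θ, hθ⟩ := hB
    exact hK k hk θ hθ
  have hU : ((Ultrafilter.of Fl : Ultrafilter (Σ k, Th (d k))) : Filter (Σ k, Th (d k))) ≤ Fl :=
    Ultrafilter.of_le Fl
  refine ⟨Ultrafilter.of Fl, hU.trans ?_, ?_, ?_⟩
  · rw [Filter.le_cofinite_iff_eventually_ne]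
    intro x
    refine (hmem _).2 ⟨Sum.inr (0, 0), x.1 + 1, fun k hk θ _ => ?_⟩
    intro h
    have h' : (⟨k, θ⟩ : Σ k, Th (d k)).1 = x.1 := by rw [h]
    simp only at h'
    omega
  · intro S
    refine Filter.Tendsto.mono_left ?_ hU
    rw [Metric.tendsto_nhds]
    intro ε hε
    obtain ⟨m, hm⟩ := exists_nat_one_div_lt hε
    refine (hmem _).2 ⟨Sum.inr (S, m), 0, fun k _ θ hθ => ?_⟩
    have := hgD (Sum.inr (S, m)) k θ hθ
    show dist _ _ < ε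
    rw [dist_zero_right]
    exact lt_of_le_of_lt this hm
  · intro v hv ε hε
    obtain ⟨m, hm⟩ := exists_nat_one_div_lt hε
    obtain ⟨T, hT⟩ := hgD (Sum.inl (⟨v, hv⟩, m))
    refine ⟨T, hU ((hmem _).2 ⟨Sum.inl (⟨v, hv⟩, m), 0, fun k _ θ hθ => ?_⟩)⟩
    exact (hT k θ hθ).trans hm.le

end Pool.Agent.H88.RX
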